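import Mathlib

namespace Pool.Agent.K4H47.PM

open Matrix

theorem ds_contract {n : ℕ} (q : ENNReal) [Fact (1 ≤ q)] (W : Matrix (Fin n) (Fin n) ℝ)
    (hW : W ∈ doublyStochastic ℝ (Fin n)) (x : Fin n → ℝ) :
    ‖(WithLp.toLp q (W.mulVec x) : PiLp q fun _ : Fin n => ℝ)‖
      ≤ ‖(WithLp.toLp q x : PiLp q fun _ : Fin n => ℝ)‖ := by
  obtain ⟨w, hw0, hw1, hW⟩ := exists_eq_sum_perm_of_mem_doublyStochastic hW
  have hperm : ∀ σ : Equiv.Perm (Fin n),
      ‖(WithLp.toLp q ((σ.permMatrix ℝ).mulVec x) : PiLp q fun _ : Fin n => ℝ)‖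
        = ‖(WithLp.toLp q x : PiLp q fun _ : Fin n => ℝ)‖ := by
    intro σ
    have := (LinearIsometryEquiv.piLpCongrLeft q ℝ ℝ σ.symm).norm_map (WithLp.toLp q x)
    rw [← this]
    congr 1
    ext i
    simp [LinearIsometryEquiv.piLpCongrLeft_apply, Matrix.permMatrix_mulVec]
  have e : (WithLp.toLp q (W.mulVec x) : PiLp q fun _ : Fin n => ℝ)
      = ∑ σ : Equiv.Perm (Fin n), w σ • WithLp.toLp q ((σ.permMatrix ℝ).mulVec x) := by
    rw [← hW, Matrix.sum_mulVec]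
    simp only [Matrix.smul_mulVec]
    ext i
    simp
  rw [e]
  refine (norm_sum_le _ _).trans ?_
  have : ∀ σ ∈ (Finset.univ : Finset (Equiv.Perm (Fin n))),
      ‖w σ • (WithLp.toLp q ((σ.permMatrix ℝ).mulVec x) : PiLp q fun _ : Fin n => ℝ)‖
        = w σ * ‖(WithLp.toLp q x : PiLp q fun _ : Fin n => ℝ)‖ := by
    intro σ _
    rw [norm_smul, hperm, Real.norm_of_nonneg (hw0 σ)]
  rw [Finset.sum_congr rfl this, ← Finset.sum_mul, hw1, one_mul]

theorem lp_mono {n : ℕ} (q : ENNReal) [Fact (1 ≤ q)] (x y : Fin n → ℝ)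
    (h : ∀ i, |x i| ≤ |y i|) :
    ‖(WithLp.toLp q x : PiLp q fun _ : Fin n => ℝ)‖
      ≤ ‖(WithLp.toLp q y : PiLp q fun _ : Fin n => ℝ)‖ := by
  rcases eq_or_ne q ⊤ with rfl | hq
  · rw [PiLp.norm_eq_ciSup, PiLp.norm_eq_ciSup]
    rcases isEmpty_or_nonempty (Fin n) with h0 | h0
    · simp
    · apply ciSup_mono (Set.finite_range _).bddAbove
      intro i
      simpa using h i
  · have hq1 : 1 ≤ q := Fact.out
    have hq0 : 0 < q.toReal := ENNReal.toReal_pos (by positivity) hq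
    rw [PiLp.norm_eq_sum hq0, PiLp.norm_eq_sum hq0]
    apply Real.rpow_le_rpow
    · positivity
    · apply Finset.sum_le_sum
      intro i _
      apply Real.rpow_le_rpow (norm_nonneg _) _ hq0.le
      simpa using h i
    · positivity

end Pool.Agent.K4H47.PM
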